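import Pool.Agent.W559.Wr.StmR
import Pool.Agent.W924.ET.POW
import Pool.Agent.W930.ET.Perm

/-!
# Project WRR, part POW: the affine atlas of a power, relative version
-/

set_option autoImplicit false
set_option linter.unusedSectionVars false

open AlgebraicGeometry CategoryTheory TensorProduct

universe u v w

namespace Pool.Agent.W381.WRR

open Pool.Agent.W559.Mg Pool.Agent.W559.Et Pool.Agent.W559.Wr Pool.Agent.H920R2

section forms

variable {k K : Type u} [Field k] [Field K] [Algebra k K] {m : ℕ} (z : Fin (m + 1) → K)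
  (A : Subalgebra k K)

theorem not_mem_prime {d : ℕ} (hd : 1 ≤ d) {F : K} (hF : F ∈ FS k z d) (hF0 : F ≠ 0)
    (Q : Ideal (AF k z d F)) (hQ : Q.IsPrime) :
    ∃ i, (⟨z i ^ d / F, FS_div_mem z (FS_z z i d)⟩ : AF k z d F) ∉ Q := by
  classical
  by_contra hcon
  push Not at hcon
  have h1 : ∀ x ∈ MN z d, ∃ h : x / F ∈ AF k z d F, (⟨x / F, h⟩ : AF k z d F) ∈ Q := by
    rintro x hx
    have hxF : x / F ∈ AF k z d F := Algebra.subset_adjoin ⟨x, hx, rfl⟩
    refine ⟨hxF, ?_⟩
    obtain ⟨a, ha, rfl⟩ := hx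
    apply hQ.mem_of_pow_mem d
    have h2 : (⟨_, hxF⟩ : AF k z d F) ^ d =
        ∏ i, (⟨z i ^ d / F, FS_div_mem z (FS_z z i d)⟩ : AF k z d F) ^ a i := by
      apply Subtype.ext
      change ((∏ i, z i ^ a i) / F) ^ d = ((AF k z d F).val)
        (∏ i, (⟨z i ^ d / F, FS_div_mem z (FS_z z i d)⟩ : AF k z d F) ^ a i)
      rw [map_prod]
      have h3 : ∀ i, (AF k z d F).val
          ((⟨z i ^ d / F, FS_div_mem z (FS_z z i d)⟩ : AF k z d F) ^ a i) =
          (z i ^ a i) ^ d / F ^ a i := by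
        intro i
        change (z i ^ d / F) ^ a i = _
        rw [div_pow, ← pow_mul, ← pow_mul, mul_comm d]
      rw [Finset.prod_congr rfl fun i _ => h3 i, Finset.prod_div_distrib, Finset.prod_pow,
        Finset.prod_pow_eq_pow_sum, ha, div_pow]
    rw [h2]
    obtain ⟨i, hi⟩ : ∃ i, a i ≠ 0 := by
      by_contra hcon2
      push Not at hcon2
      have : ∑ i, a i = 0 := Finset.sum_eq_zero fun i _ => hcon2 i
      omega
    rw [← Finset.mul_prod_erase _ _ (Finset.mem_univ i)]
    exact Q.mul_mem_right _ (Ideal.pow_mem_of_mem _ (hcon i) _ (Nat.pos_of_ne_zero hi))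
  have h2 : ∀ x ∈ FS k z d, ∃ h : x / F ∈ AF k z d F, (⟨x / F, h⟩ : AF k z d F) ∈ Q := by
    intro x hx
    refine ⟨FS_div_mem z hx, ?_⟩
    unfold FS at hx
    induction hx using Submodule.span_induction with
    | mem x hx => exact (h1 x hx).2
    | zero =>
      have h3 : (⟨0 / F, FS_div_mem z (Submodule.zero_mem _)⟩ : AF k z d F) = 0 :=
        Subtype.ext (zero_div F)
      rw [h3]
      exact Q.zero_mem
    | add a b ha' hb' ha hb =>
      have h3 : (⟨(a + b) / F, FS_div_mem z (Submodule.add_mem _ ha' hb')⟩ : AF k z d F) =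
          ⟨a / F, FS_div_mem z ha'⟩ + ⟨b / F, FS_div_mem z hb'⟩ := Subtype.ext (add_div _ _ _)
      rw [h3]
      exact Q.add_mem ha hb
    | smul c a ha' ha =>
      have h3 : (⟨(c • a) / F, FS_div_mem z (Submodule.smul_mem _ c ha')⟩ : AF k z d F) =
          c • ⟨a / F, FS_div_mem z ha'⟩ := Subtype.ext (smul_div_assoc _ _ _)
      rw [h3, Algebra.smul_def]
      exact Q.mul_mem_left _ ha
  obtain ⟨h3, h4⟩ := h2 F hF
  apply hQ.ne_top
  rw [Ideal.eq_top_iff_one]
  have h5 : (⟨F / F, h3⟩ : AF k z d F) = 1 := Subtype.ext (div_self hF0)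
  rwa [h5] at h4

theorem memA {x : K} {B : Subalgebra k K} (h : x ∈ B) : x ∈ A ⊔ B :=
  (le_sup_right : B ≤ A ⊔ B) h

theorem prime_ext {ι : Type} {B C : Subalgebra k K} (hBC : B ≤ C) (x : ι → K)
    (hx : ∀ i, x i ∈ B)
    (h : ∀ Q : Ideal B, Q.IsPrime → ∃ i, (⟨x i, hx i⟩ : B) ∉ Q)
    (Q : Ideal C) (hQ : Q.IsPrime) (hx' : ∀ i, x i ∈ C) : ∃ i, (⟨x i, hx' i⟩ : C) ∉ Q := by
  obtain ⟨i, hi⟩ := h (Q.comap (Subalgebra.inclusion hBC).toRingHom) (hQ.comap _)
  exact ⟨i, fun h => hi (Ideal.mem_comap.2 h)⟩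

theorem not_mem_primeR {d : ℕ} (hd : 1 ≤ d) {F : K} (hF : F ∈ FS k z d) (hF0 : F ≠ 0)
    (Q : Ideal (A ⊔ AF k z d F : Subalgebra k K)) (hQ : Q.IsPrime) :
    ∃ i, (⟨z i ^ d / F, memA A (FS_div_mem z (FS_z z i d))⟩ :
      (A ⊔ AF k z d F : Subalgebra k K)) ∉ Q :=
  prime_ext le_sup_right (fun i => z i ^ d / F) (fun i => FS_div_mem z (FS_z z i d))
    (fun Q hQ => not_mem_prime z hd hF hF0 Q hQ) Q hQ
    (fun i => memA A (FS_div_mem z (FS_z z i d)))

variable (hz : ∀ i, z i ≠ 0)

include hz in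
theorem locL_AFR (i : Fin (m + 1)) {d : ℕ} (hd : 1 ≤ d) {F : K} (hF : F ∈ FS k z d)
    (hF0 : F ≠ 0) :
    locL (A ⊔ AF k z d F) (z i ^ d / F) (memA A (FS_div_mem z (FS_z z i d))) =
      locL (A ⊔ AZ k z i) (F / z i ^ d) (memA A (FS_div_mem' z i hF)) := by
  have hzd : z i ^ d ≠ 0 := pow_ne_zero _ (hz i)
  have hinv : (z i ^ d / F) = (F / z i ^ d)⁻¹ := (inv_div _ _).symm
  have h0 := locL_AF z hz i hd hF hF0
  apply le_antisymm
  · rintro y ⟨n, hn⟩
    have hle : A ⊔ AF k z d F ≤ locL (A ⊔ AZ k z i) (F / z i ^ d)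
        (memA A (FS_div_mem' z i hF)) := by
      refine sup_le (fun x hx => le_locL _ _ _ ((le_sup_left : A ≤ _) hx)) fun x hx => ?_
      have h1 : x ∈ locL (AF k z d F) (z i ^ d / F) (FS_div_mem z (FS_z z i d)) :=
        le_locL _ _ _ hx
      rw [h0] at h1
      obtain ⟨r, hr⟩ := h1
      exact ⟨r, memA A hr⟩
    have h1 := hle hn
    have h2 : y = (F / z i ^ d) ^ n * ((z i ^ d / F) ^ n * y) := by
      rw [← mul_assoc, ← mul_pow, hinv, mul_inv_cancel₀ (div_ne_zero hF0 hzd), one_pow, one_mul]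
    rw [h2]
    exact Subalgebra.mul_mem _ (Subalgebra.pow_mem _
      (le_locL _ _ _ (memA A (FS_div_mem' z i hF))) _) h1
  · rintro y ⟨n, hn⟩
    have hle : A ⊔ AZ k z i ≤ locL (A ⊔ AF k z d F) (z i ^ d / F)
        (memA A (FS_div_mem z (FS_z z i d))) := by
      refine sup_le (fun x hx => le_locL _ _ _ ((le_sup_left : A ≤ _) hx)) fun x hx => ?_
      have h1 : x ∈ locL (AZ k z i) (F / z i ^ d) (FS_div_mem' z i hF) :=
        le_locL _ _ _ hx
      rw [← h0] at h1
      obtain ⟨r, hr⟩ := h1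
      exact ⟨r, memA A hr⟩
    have h1 := hle hn
    have h2 : y = (z i ^ d / F) ^ n * ((F / z i ^ d) ^ n * y) := by
      rw [← mul_assoc, ← mul_pow, hinv, inv_mul_cancel₀ (div_ne_zero hF0 hzd), one_pow, one_mul]
    rw [h2]
    exact Subalgebra.mul_mem _ (Subalgebra.pow_mem _
      (le_locL _ _ _ (memA A (FS_div_mem z (FS_z z i d)))) _) h1

include hz in
/-- The charts are smooth. -/
theorem smooth_AFR (hsm : ∀ i, Algebra.Smooth k (A ⊔ AZ k z i : Subalgebra k K)) {d : ℕ}
    (hd : 1 ≤ d) {F : K} (hF : F ∈ FS k z d) (hF0 : F ≠ 0) :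
    Algebra.Smooth k (A ⊔ AF k z d F : Subalgebra k K) := by
  classical
  have key : ∀ i, Algebra.Smooth k
      (locL (A ⊔ AF k z d F) (z i ^ d / F) (memA A (FS_div_mem z (FS_z z i d)))) := by
    intro i
    rw [locL_AFR z A hz i hd hF hF0]
    exact smooth_locL _ (hsm i) _ _ (div_ne_zero hF0 (pow_ne_zero _ (hz i)))
  apply smooth_of_locL
  intro Q hQ
  obtain ⟨i, hi⟩ := not_mem_primeR z A hd hF hF0 Q hQ
  exact ⟨z i ^ d / F, memA A (FS_div_mem z (FS_z z i d)), hi, key i⟩

theorem AFR_gl {d : ℕ} {F G : K} (hG : G ∈ FS k z d) (hG0 : G ≠ 0) :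
    A ⊔ AF k z d G ≤ locL (A ⊔ AF k z d F) (G / F) (memA A (FS_div_mem z hG)) := by
  refine sup_le (fun x hx => le_locL _ _ _ ((le_sup_left : A ≤ _) hx)) fun x hx => ?_
  obtain ⟨r, hr⟩ := AF_gl z (F := F) hG hG0 hx
  exact ⟨r, memA A hr⟩

variable {z}

include hz in
theorem AFR_frac (hgenz : IntermediateField.adjoin k
      ((A : Set K) ∪ Set.range fun j => z j / z 0) = ⊤) {d : ℕ} (hd : 1 ≤ d) {F : K}
    (hF0 : F ≠ 0) (y : K) :
    FrB ((A ⊔ AF k z d F : Subalgebra k K).val : (A ⊔ AF k z d F : Subalgebra k K) →+* K) y := by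
  have h1 : frF (A ⊔ AF k z d F : Subalgebra k K).val = ⊤ := by
    rw [eq_top_iff, ← hgenz, IntermediateField.adjoin_le_iff]
    rintro _ (hx | ⟨j, rfl⟩)
    · exact FrB.of ((A ⊔ AF k z d F : Subalgebra k K).val :
        (A ⊔ AF k z d F : Subalgebra k K) →+* K) ⟨_, (le_sup_left : A ≤ _) hx⟩
    · have h2 : z j * z 0 ^ (d - 1) ∈ FS k z d := by
        have h2 := FS_mul (k := k) z (FS_z z j 1) (FS_z z 0 (d - 1))
        rw [pow_one, Nat.add_sub_cancel' hd] at h2
        exact h2
      refine ⟨⟨_, memA A (FS_div_mem z h2)⟩, ⟨_, memA A (FS_div_mem z (FS_z z 0 d))⟩, ?_, ?_⟩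
      · change z 0 ^ d / F ≠ 0
        exact div_ne_zero (pow_ne_zero _ (hz 0)) hF0
      · change z j / z 0 = (z j * z 0 ^ (d - 1) / F) / (z 0 ^ d / F)
        obtain ⟨c, rfl⟩ := Nat.exists_eq_add_of_le hd
        rw [Nat.add_sub_cancel_left, pow_add, pow_one]
        have := hz 0
        field_simp
  have h2 : y ∈ frF (A ⊔ AF k z d F : Subalgebra k K).val := by rw [h1]; trivial
  exact h2

end forms

section integral

variable {k L : Type u} [Field k] [Field L] [Algebra k L]

open Polynomial in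
/-- Elements of an algebra stable under the two automorphisms lie in every valuation ring which
contains the invariants. -/
theorem mem_val {γ h : L →ₐ[k] L} {p M : ℕ} {ω : k} (hG : GD γ h p M ω) (D : Subalgebra k L)
    (hg : ∀ x ∈ D, γ x ∈ D) (hh : ∀ x ∈ D, h x ∈ D) (V : ValuationSubring L)
    (hV : ∀ x ∈ D, γ x = x → h x = x → x ∈ V) {x : L} (hx : x ∈ D) : x ∈ V := by
  classical
  let f : ℕ → ℕ → L := fun a b => γ^[a] (h^[b] x)
  have hfD : ∀ a b, f a b ∈ D := by
    intro a b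
    have h1 : ∀ b, h^[b] x ∈ D := by
      intro b
      induction b with
      | zero => exact hx
      | succ b ih => rw [Function.iterate_succ_apply']; exact hh _ ih
    induction a with
    | zero => exact h1 b
    | succ a ih =>
      change γ^[a + 1] (h^[b] x) ∈ D
      rw [Function.iterate_succ_apply']; exact hg _ ih
  let P : L[X] := ∏ a ∈ Finset.range (p * p), ∏ b ∈ Finset.range M, (X - C (f a b))
  have hPm : P.Monic := monic_prod_of_monic _ _ fun a _ =>
    monic_prod_of_monic _ _ fun b _ => monic_X_sub_C _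
  have hroot : P.eval x = 0 := by
    rw [eval_prod]
    refine Finset.prod_eq_zero (Finset.mem_range.2 (Nat.mul_pos hG.pp.pos hG.pp.pos)) ?_
    rw [eval_prod]
    refine Finset.prod_eq_zero (Finset.mem_range.2 hG.M0) ?_
    simp [f]
  have hPg : P.map (γ : L →+* L) = P := by
    change (∏ a ∈ Finset.range (p * p), ∏ b ∈ Finset.range M, (X - C (f a b))).map
      (γ : L →+* L) = P
    rw [Polynomial.map_prod]
    have h1 : ∀ a ∈ Finset.range (p * p),
        (∏ b ∈ Finset.range M, (X - C (f a b))).map (γ : L →+* L) =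
          ∏ b ∈ Finset.range M, (X - C (f (a + 1) b)) := by
      intro a _
      rw [Polynomial.map_prod]
      refine Finset.prod_congr rfl fun b _ => ?_
      rw [Polynomial.map_sub, Polynomial.map_X, Polynomial.map_C]
      congr 2
      exact (Function.iterate_succ_apply' γ a (h^[b] x)).symm
    rw [Finset.prod_congr rfl h1]
    obtain ⟨r, hr⟩ := Nat.exists_eq_succ_of_ne_zero (Nat.mul_pos hG.pp.pos hG.pp.pos).ne'
    change _ = ∏ a ∈ Finset.range (p * p), ∏ b ∈ Finset.range M, (X - C (f a b))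
    have h2 : ∀ b, f (p * p) b = f 0 b := fun b => hG.g _
    rw [hr] at h2 ⊢
    rw [Finset.prod_range_succ, Finset.prod_range_succ' (fun a => ∏ b ∈ Finset.range M,
      (X - C (f a b)))]
    congr 1
    exact Finset.prod_congr rfl fun b _ => by rw [h2 b]
  have hcomm : ∀ a y, h (γ^[a] y) = γ^[a] (h y) := by
    intro a y
    induction a with
    | zero => rfl
    | succ a ih => rw [Function.iterate_succ_apply', Function.iterate_succ_apply', ← hG.c, ih]
  have hPh : P.map (h : L →+* L) = P := by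
    change (∏ a ∈ Finset.range (p * p), ∏ b ∈ Finset.range M, (X - C (f a b))).map
      (h : L →+* L) = P
    rw [Polynomial.map_prod]
    refine Finset.prod_congr rfl fun a _ => ?_
    rw [Polynomial.map_prod]
    have h1 : ∀ b ∈ Finset.range M, (X - C (f a b)).map (h : L →+* L) = X - C (f a (b + 1)) := by
      intro b _
      rw [Polynomial.map_sub, Polynomial.map_X, Polynomial.map_C]
      congr 2
      change h (γ^[a] (h^[b] x)) = γ^[a] (h^[b + 1] x)
      rw [hcomm, Function.iterate_succ_apply']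
    rw [Finset.prod_congr rfl h1]
    obtain ⟨r, hr⟩ := Nat.exists_eq_succ_of_ne_zero hG.M0.ne'
    have h2 : f a M = f a 0 := by
      change γ^[a] (h^[M] x) = γ^[a] (h^[0] x)
      rw [hG.hM]; rfl
    rw [hr] at h2 ⊢
    rw [Finset.prod_range_succ, Finset.prod_range_succ' (fun b => (X - C (f a b)))]
    congr 1
    rw [h2]
  have hlift : P ∈ Polynomial.lifts (D.val : D →+* L) := by
    refine prod_mem fun a _ => prod_mem fun b _ => ?_
    rw [sub_eq_add_neg, ← C_neg]
    exact add_mem (Polynomial.X_mem_lifts _)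
      (Polynomial.C'_mem_lifts ⟨⟨-f a b, D.neg_mem (hfD a b)⟩, rfl⟩)
  have hcoef : ∀ j, P.coeff j ∈ D := by
    intro j
    obtain ⟨y, hy⟩ := (Polynomial.lifts_iff_coeff_lifts P).1 hlift j
    rw [← hy]
    exact y.2
  have hcV : ∀ j, P.coeff j ∈ V := by
    intro j
    apply hV _ (hcoef j)
    · have := congrArg (fun q => Polynomial.coeff q j) hPg
      simpa [Polynomial.coeff_map] using this
    · have := congrArg (fun q => Polynomial.coeff q j) hPh
      simpa [Polynomial.coeff_map] using this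
  have hliftV : P ∈ Polynomial.lifts (algebraMap V L) := by
    rw [Polynomial.lifts_iff_coeff_lifts]
    intro j
    exact ⟨⟨P.coeff j, hcV j⟩, rfl⟩
  obtain ⟨q, hq1, -, hq2⟩ := Polynomial.lifts_and_natDegree_eq_and_monic hliftV hPm
  have hint : IsIntegral V x := by
    refine ⟨q, hq2, ?_⟩
    rw [← Polynomial.eval_map, hq1, hroot]
  obtain ⟨y, hy⟩ := IsIntegrallyClosed.isIntegral_iff.1 hint
  rw [← hy]
  exact y.2

end integral

theorem powR : Pool.Agent.W559.Wr.PowRStm.{u} := by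
  intro k K L _ _ _ _ _ m n z A hz hsmz hgenz e g hg hginj hfr γ h π π' hγ hh p M ω hG Kf hKf
    A₀ hA₀
  classical
  have hPerm := Pool.Agent.W930.ET.perm.{u}
  obtain ⟨d, Φ, hd, hfin, hΦ, hcov⟩ := exists_forms z hz k n
  let Φ' : Set K := Φ ∩ {F | F ≠ 0}
  have hfin' : Finite Φ' := (hfin.subset Set.inter_subset_left)
  obtain ⟨N, ⟨ε⟩⟩ := Finite.exists_equiv_fin Φ'
  let F : Fin N → K := fun a => (ε.symm a : Φ')
  have hF : ∀ a, F a ∈ FS k z d := fun a => hΦ _ (ε.symm a).2.1
  have hF0 : ∀ a, F a ≠ 0 := fun a => (ε.symm a).2.2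
  let C : Fin N → Subalgebra k L := fun a => TT e fun _ => A ⊔ AF k z d (F a)
  have hD : ∀ a, (⨆ i, A.map (e i) : Subalgebra k L) ≤ C a := fun a =>
    TT_mono e (A := fun _ => A) (A' := fun _ => A ⊔ AF k z d (F a)) fun _ => le_sup_left
  have hCγ : ∀ a, ∀ c ∈ C a, γ c ∈ C a := fun a => W924.ET.TT_stable' e γ π hγ _
  have hCh : ∀ a, ∀ c ∈ C a, h c ∈ C a := fun a => W924.ET.TT_stable' e h π' hh _
  have hfrC : ∀ a x, ∃ b ∈ C a, ∃ b' ∈ C a, b' ≠ 0 ∧ x = b / b' := by
    intro a x
    obtain ⟨b, b', hb', rfl⟩ := TT_frac e hg hfr _ (AFR_frac A hz hgenz hd (hF0 a)) x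
    exact ⟨b, b.2, b', b'.2, hb', rfl⟩
  have hz0 : z 0 ^ d ≠ 0 := pow_ne_zero _ (hz 0)
  let H : Fin N → L := fun a => ∏ i, e i (F a / z 0 ^ d)
  have hH0 : ∀ a, H a ≠ 0 := fun a => Finset.prod_ne_zero_iff.2 fun i _ =>
    (map_ne_zero (e i)).2 (div_ne_zero (hF0 a) hz0)
  have hrat : ∀ a b, H b / H a = ∏ i, e i (F b / F a) := by
    intro a b
    refine (Finset.prod_div_distrib _ _).symm.trans ?_
    refine Finset.prod_congr rfl fun i _ => ?_
    rw [← map_div₀]
    congr 1
    have := hF0 a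
    field_simp
  have hmem : ∀ a b, ∏ i, e i (F b / F a) ∈ C a := fun a b =>
    Subalgebra.prod_mem _ fun i _ => e_mem_TT e (fun _ => A ⊔ AF k z d (F a)) i
      (memA A (FS_div_mem z (hF b)))
  have hsmC : ∀ a, Algebra.Smooth k (A ⊔ AF k z d (F a) : Subalgebra k K) := fun a =>
    smooth_AFR z A hz hsmz hd (hF a) (hF0 a)
  refine ⟨N, fun a => {x | x ∈ C a ∧ γ x = x ∧ h x = x}, ?_, ?_, fun t => C t.down,
    fun t => H t.down, ?_, ?_, ?_, ?_⟩
  · intro a x hx
    exact W924.ET.frac hG (C a) (hCγ a) (hCh a) (hfrC a) ((hKf x).1 hx)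
  · intro a x hx
    obtain ⟨h1, h2⟩ := (hA₀ x).1 hx
    exact ⟨hD a h1, (hKf x).1 h2⟩
  · exact
    { H0 := fun t => hH0 t.down
      Hg := fun t => W924.ET.prod_fix e γ π hγ _
      Hh := fun t => W924.ET.prod_fix e h π' hh _
      g := fun t => hCγ t.down
      st := fun t => hCh t.down
      fr := fun t => hfrC t.down
      rt := fun t t' => by
        rw [hrat]
        exact hmem _ _
      gl := fun t t' x hx => by
        have h1 : C t'.down ≤ TT e fun _ => locL (A ⊔ AF k z d (F t.down))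
            (F t'.down / F t.down) (memA A (FS_div_mem z (hF t'.down))) :=
          TT_mono e fun _ => AFR_gl z A (hF t'.down) (hF0 t'.down)
        have h2 := h1 hx
        rw [← locL_TT e (fun _ => A ⊔ AF k z d (F t.down)) (fun _ => F t'.down / F t.down)
          (fun _ => memA A (FS_div_mem z (hF t'.down)))
          (fun _ => div_ne_zero (hF0 t'.down) (hF0 t.down)) (hmem t.down t'.down)] at h2
        rw [hrat]
        exact h2
      cv := by
        intro V hV
        have hDV : ∀ x ∈ (⨆ i, A.map (e i) : Subalgebra k L), x ∈ V := by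
          intro x hx
          refine mem_val hG (⨆ i, A.map (e i) : Subalgebra k L)
            (W924.ET.TT_stable' e γ π hγ A) (W924.ET.TT_stable' e h π' hh A) V ?_ hx
          intro y hy h1 h2
          exact hV y ((hA₀ y).2 ⟨hy, (hKf y).2 ⟨h1, h2⟩⟩)
        let V' : Fin (n + 1) → ValuationSubring K := fun i =>
          if h : (i : ℕ) < n then V.comap (e ⟨i, h⟩ : K →+* L) else ⊤
        have hV' : ∀ i (c : k), algebraMap k K c ∈ V' i := by
          intro i c
          by_cases h : (i : ℕ) < n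
          · simp only [V', dif_pos h]
            change e ⟨i, h⟩ (algebraMap k K c) ∈ V
            rw [AlgHom.commutes]
            exact hDV _ (Subalgebra.algebraMap_mem _ c)
          · simp only [V', dif_neg h]
            trivial
        obtain ⟨F₀, hF₀, hgood⟩ := hcov V' hV'
        have hF₀0 : F₀ ≠ 0 := (hgood (Fin.last n)).ne_zero z hz
        refine ⟨⟨ε ⟨F₀, hF₀, hF₀0⟩⟩, ?_⟩
        have hFa : F (ε ⟨F₀, hF₀, hF₀0⟩) = F₀ := by
          change ((ε.symm (ε ⟨F₀, hF₀, hF₀0⟩) : Φ') : K) = F₀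
          rw [Equiv.symm_apply_apply]
        let S : Subalgebra k L :=
          { carrier := {x | x ∈ V}
            mul_mem' := fun ha hb => V.mul_mem _ _ ha hb
            add_mem' := fun ha hb => V.add_mem _ _ ha hb
            algebraMap_mem' := fun c => hDV _ (Subalgebra.algebraMap_mem _ c) }
        have hle : C (ε ⟨F₀, hF₀, hF₀0⟩) ≤ S := by
          refine TT_le e _ _ ?_
          intro i x hx
          rw [hFa] at hx
          have h2 : V' i.castSucc = V.comap (e i : K →+* L) := by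
            have : ((i.castSucc : Fin (n + 1)) : ℕ) < n := i.2
            simp only [V', dif_pos this]
            rfl
          have hle2 : A ⊔ AF k z d F₀ ≤ S.comap (e i) := by
            refine sup_le (fun y hy => ?_) fun y hy => ?_
            · exact hDV _ (e_mem_TT e (fun _ => A) i hy)
            · have h1 := good_AF z hz (V' i.castSucc) (hV' _) (hgood i.castSucc) y hy
              rw [h2] at h1
              exact h1
          exact hle2 hx
        intro b hb
        exact hle hb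
      aa := fun t => ⟨t.down, fun x hx => hx⟩
      kf := hKf }
  · intro t
    exact smooth_TT e hg hginj _ fun _ => hsmC t.down
  · intro t
    exact hPerm k K L n e g hg hginj γ π hγ _ (hsmC t.down)
  · intro t
    exact hPerm k K L n e g hg hginj (γ ^ p) (π ^ p) (W924.ET.pow_perm e γ π hγ p) _
      (hsmC t.down)

end Pool.Agent.W381.WRR
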